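import Mathlib
import Pool.Agent.H568R2.Defs
import Pool.Agent.H592R3.Defs
import Pool.Agent.H592R3.OvDefs
import Pool.Agent.H72.Ov.Avg

/-!
Orthogonal vectors are hard on average for circuits of small depth with `N ^ (2 - ε)` gates:
there are two distributions on instances of dimension about `4 ^ w`, one supported on instances
with an orthogonal pair and one on instances that almost surely have none, which no such circuit
distinguishes with advantage more than `2 ^ (-w / C)`.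
-/

set_option autoImplicit false

open SmallDepth DomAC0 Finset

namespace Pool.Agent.Results.MP_0f984e_lc.AverageCase

theorem decide_le {U : Type} [Fintype U] (ν₀ ν₁ : U → ℝ) (yes : U → Prop)
    (K : U → Bool) [∀ u, Decidable (yes u)] [∀ u, Decidable (K u = true)]
    [∀ u, Decidable (K u = true ↔ yes u)] (h00 : ∀ u, 0 ≤ ν₀ u) (h01 : ∑ u, ν₀ u = 1)
    (hs : ∀ u, ν₁ u ≠ 0 → yes u) (δ η : ℝ)
    (hη : (∑ u, ν₀ u * (if yes u then (1 : ℝ) else 0)) ≤ η)
    (hδ : |(∑ u, ν₀ u * (if K u = true then (1 : ℝ) else 0)) -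
          ∑ u, ν₁ u * (if K u = true then 1 else 0)| ≤ δ) :
    ∑ u, (ν₀ u + ν₁ u) / 2 * (if (K u = true ↔ yes u) then (1 : ℝ) else 0) ≤
      1 / 2 + (δ + η) / 2 := by
  have e0 : ∑ u, ν₀ u * (if (K u = true ↔ yes u) then (1 : ℝ) else 0) ≤
      (1 - ∑ u, ν₀ u * (if K u = true then (1 : ℝ) else 0)) + η := by
    have e00 : (1 - ∑ u, ν₀ u * (if K u = true then (1 : ℝ) else 0)) =
        ∑ u, (ν₀ u - ν₀ u * (if K u = true then (1 : ℝ) else 0)) := by
      rw [Finset.sum_sub_distrib, h01]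
    rw [e00]
    refine le_trans ?_ (add_le_add_right hη _)
    rw [← Finset.sum_add_distrib]
    apply Finset.sum_le_sum
    intro u _
    have := h00 u
    by_cases h1 : K u = true <;> by_cases h2 : yes u <;> simp [h1, h2, this]
  have e1 : ∑ u, ν₁ u * (if (K u = true ↔ yes u) then (1 : ℝ) else 0) =
      ∑ u, ν₁ u * (if K u = true then (1 : ℝ) else 0) := by
    apply Finset.sum_congr rfl
    intro u _
    by_cases h0 : ν₁ u = 0
    · rw [h0]; ring
    · have h2 := hs u h0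
      by_cases h1 : K u = true <;> simp [h1, h2]
  have e2 : ∑ u, (ν₀ u + ν₁ u) / 2 * (if (K u = true ↔ yes u) then (1 : ℝ) else 0) =
      (∑ u, ν₀ u * (if (K u = true ↔ yes u) then (1 : ℝ) else 0) +
        ∑ u, ν₁ u * (if (K u = true ↔ yes u) then (1 : ℝ) else 0)) / 2 := by
    rw [← Finset.sum_add_distrib, Finset.sum_div]
    apply Finset.sum_congr rfl
    intro u _
    ring
  rw [e2, e1]
  have h3 := (abs_le.1 hδ).1
  linarith

open Classical in
/-- For every `ε > 0` there is `C > 0` such that for `N ≥ 4` vectors on each side, depth `d ≥ 1`,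
`C d log log N ≤ w ≤ log N` and dimension `D ≥ 4 ^ w` there are two probability distributions
`ν₀`, `ν₁` on instances (two lists of `N` distinct vectors of dimension `D`) such that `ν₁` is
supported on instances with an orthogonal pair, an instance of `ν₀` has an orthogonal pair with
probability at most `N ^ (-(1 - ε))`, and every circuit of depth at most `d` with at most
`N ^ (2 - ε)` gates has advantage at most `2 ^ (-w / C)` in telling `ν₀` from `ν₁`, and decides
whether there is an orthogonal pair on the mixture `(ν₀ + ν₁) / 2` with probability at most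
`1 / 2 + 2 ^ (-w / C)`. -/
theorem result (ε : ℝ) (hε : 0 < ε) : ∃ C : ℝ, 0 < C ∧
    ∀ N D d w : ℕ, 4 ≤ N → 1 ≤ d →
    C * (d * Real.log (Real.logb 2 N)) ≤ w → (w : ℝ) ≤ Real.logb 2 N → 4 ^ w ≤ D →
    ∃ ν₀ ν₁ : (OvBits N D → Bool) → ℝ,
      ((∀ x, 0 ≤ ν₀ x) ∧ ∑ x, ν₀ x = 1) ∧ ((∀ x, 0 ≤ ν₁ x) ∧ ∑ x, ν₁ x = 1) ∧
      (∀ x, ν₀ x ≠ 0 → OvDistinct x) ∧ (∀ x, ν₁ x ≠ 0 → OvDistinct x ∧ OvYes x) ∧
      (∑ x, ν₀ x * (if OvYes x then 1 else 0)) ≤ (N : ℝ) ^ (-(1 - ε)) ∧
      ∀ K : Circuit (OvBits N D), K.depth ≤ d → (K.size : ℝ) ≤ (N : ℝ) ^ (2 - ε) →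
        |(∑ x, ν₀ x * (if K.eval x = true then 1 else 0)) -
          ∑ x, ν₁ x * (if K.eval x = true then 1 else 0)| ≤ (2 : ℝ) ^ (-((w : ℝ) / C)) ∧
        ∑ x, (ν₀ x + ν₁ x) / 2 * (if (K.eval x = true ↔ OvYes x) then 1 else 0) ≤
          1 / 2 + (2 : ℝ) ^ (-((w : ℝ) / C)) := by
  obtain ⟨C, hC, H⟩ := Pool.Agent.H72.Ov.ov_avg (min ε (1 / 2)) (lt_min hε (by norm_num))
    (lt_of_le_of_lt (min_le_right _ _) (by norm_num))
  have hm1 : min ε (1 / 2) ≤ ε := min_le_left _ _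
  have hm2 : min ε (1 / 2) ≤ 1 / 2 := min_le_right _ _
  refine ⟨max C 2, lt_max_of_lt_left hC, ?_⟩
  intro N D d w hN hd hw hwL hD
  have hNR : (4 : ℝ) ≤ N := by exact_mod_cast hN
  have hN0 : (0 : ℝ) < N := by linarith
  obtain ⟨L, hL⟩ : ∃ L : ℝ, L = Real.logb 2 N := ⟨_, rfl⟩
  have hN2 : (N : ℝ) = 2 ^ L := by
    rw [hL, Real.rpow_logb (by norm_num) (by norm_num) hN0]
  have hL2 : 2 ≤ L := by
    rw [hL, Real.le_logb_iff_rpow_le (by norm_num) hN0]
    norm_num
    exact hN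
  have hlog : 0 ≤ (d : ℝ) * Real.log (Real.logb 2 N) := by
    have := Real.log_nonneg (by rw [← hL]; linarith : (1 : ℝ) ≤ Real.logb 2 N)
    positivity
  obtain ⟨ν₀, ν₁, h0, h1, hd0, hd1, hsat, hK⟩ := H N D d w hN hd
    (le_trans (mul_le_mul_of_nonneg_right (le_max_left _ _) hlog) hw) hwL hD
  have hexp : (2 : ℝ) ^ (-((w : ℝ) / C)) ≤ (2 : ℝ) ^ (-((w : ℝ) / max C 2)) := by
    apply Real.rpow_le_rpow_of_exponent_le (by norm_num)
    rw [neg_le_neg_iff]
    exact div_le_div_of_nonneg_left (Nat.cast_nonneg w) hC (le_max_left _ _)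
  have hexp2 : (N : ℝ) ^ (-(1 - min ε (1 / 2))) ≤ (2 : ℝ) ^ (-((w : ℝ) / max C 2)) := by
    rw [hN2, ← Real.rpow_mul (by norm_num)]
    apply Real.rpow_le_rpow_of_exponent_le (by norm_num)
    rw [mul_neg, neg_le_neg_iff]
    rw [← hL] at hwL
    calc (w : ℝ) / max C 2 ≤ (w : ℝ) / 2 := div_le_div_of_nonneg_left (Nat.cast_nonneg w)
          (by norm_num) (le_max_right _ _)
      _ ≤ L / 2 := by linarith
      _ ≤ L * (1 - min ε (1 / 2)) := by nlinarith
  refine ⟨ν₀, ν₁, h0, h1, hd0, hd1, ?_, ?_⟩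
  · refine hsat.trans ?_
    apply Real.rpow_le_rpow_of_exponent_le (by linarith)
    linarith
  · intro K hKd hKs
    have hKs' : (K.size : ℝ) ≤ (N : ℝ) ^ (2 - min ε (1 / 2)) := by
      refine hKs.trans ?_
      apply Real.rpow_le_rpow_of_exponent_le (by linarith)
      linarith
    have hadv := hK K hKd hKs'
    refine ⟨hadv.trans hexp, ?_⟩
    refine (decide_le ν₀ ν₁ (fun x => OvYes x) K.eval h0.1 h0.2
      (fun x hx => (hd1 x hx).2) _ _ hsat hadv).trans ?_
    linarith [hexp, hexp2]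

end Pool.Agent.Results.MP_0f984e_lc.AverageCase
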